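import Pool.Agent.Run7.h16.NV.Def

/-!
Closure properties of a class of groups: normal subgroups with a system of retractions.
-/

namespace Run7.h16.DS

open CategoryTheory Monoid Pool.Agent.Y483 Pool.Agent.Y75.MQ Pool.Agent.Y110.KW

/-- A system of retractions for the normal subgroup `K` of `G`: endomorphisms `f i` of `G` which
induce the identity on `G / K`, such that the restrictions `e i` to `K` are idempotent and commute,
the composite of two of them is one of them or trivial, and the images of the `e i` generate the
rational homology of `K`. -/
structure RetrSys {G : Type} [Group G] (K : Subgroup G) (I : Type) where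
  /-- The endomorphisms of `G`. -/
  f : I → (G →* G)
  /-- The restrictions to `K`. -/
  e : I → (K →* K)
  quot : ∀ (i : I) (g : G), (f i g)⁻¹ * g ∈ K
  restr : ∀ (i : I) (k : K), ((e i k : K) : G) = f i k
  comm : ∀ i j : I, (e i).comp (e j) = (e j).comp (e i)
  idem : ∀ i : I, (e i).comp (e i) = e i
  mul : ∀ i j : I, (∃ l : I, (e i).comp (e j) = e l) ∨ (e i).comp (e j) = 1
  gen : ∀ (n : ℕ) (x : (hq n).obj (GrpCat.of K)),
    x ∈ ⨆ i : I, LinearMap.range ((hq n).map (GrpCat.ofHom (e i))).hom

/-- The subgroup `B` of `G` maps onto `G / K` and intersects `K` in `L`. -/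
def Lifts {G : Type} [Group G] (K B L : Subgroup G) : Prop := B ⊔ K = ⊤ ∧ B ⊓ K = L

/-- The image of the factor `P v` in `G`. -/
def factor {G : Type} [Group G] (K : Subgroup G) {V : Type} {P : V → Type} [∀ v, Group (P v)]
    (θ : CoprodI P ≃* K) (v : V) : Subgroup G :=
  ((K.subtype.comp θ.toMonoidHom).comp (CoprodI.of : P v →* CoprodI P)).range

/-- The image of the subgroup generated by the images of the `P v`, `v ∈ S`, in `G`. -/
def paraG {G : Type} [Group G] (K : Subgroup G) {V : Type} {P : V → Type} [∀ v, Group (P v)]
    {R : Set (CoprodI P)} (θ : Quo R ≃* K) (S : Set V) : Subgroup G :=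
  (para R S).map (K.subtype.comp θ.toMonoidHom)

/-- Let `H` be a subgroup of finite index in `G` and let `K` be a normal subgroup of `H` with a
system of retractions `f i`. If the images of the `f i` are in the class, then `G` is. -/
def ClosedRetr (C : ∀ (G : Type) [Group G], Prop) : Prop :=
  ∀ (G : Type) [Group G] (H : Subgroup G) [H.FiniteIndex] (K : Subgroup H) [K.Normal]
    (I : Type) [Nonempty I] (s : RetrSys K I), (∀ i : I, C (s.f i).range) → C G

/-- Let `H` be a subgroup of finite index in `G` and let `K` be a normal subgroup of `H`. Let `K` be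
isomorphic to the quotient of the free product of the groups `P v` by a set `R` of local relations.
If for each nonempty finite set `σ` of pairwise linked indices there is a subgroup `B` of `H` which
is in the class, maps onto `H / K` and intersects `K` in the subgroup generated by the images of the
`P v`, `v ∈ σ`, then `G` is in the class. -/
def ClosedLocal (C : ∀ (G : Type) [Group G], Prop) : Prop :=
  ∀ (G : Type) [Group G] (H : Subgroup G) [H.FiniteIndex] (K : Subgroup H) [K.Normal]
    (V : Type) [Nonempty V] (P : V → Type) [∀ v, Group (P v)] (R : Set (CoprodI P)), IsLocal R →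
    ∀ θ : Quo R ≃* K,
    (∀ σ : Finset V, σ.Nonempty → (∀ u ∈ σ, ∀ v ∈ σ, u ≠ v → Linked R u v) →
      ∃ B : Subgroup H, Lifts K B (paraG K θ (σ : Set V)) ∧ C B) → C G

/-- The same for a graph product `K` of the groups `P v`; here `σ` runs through the nonempty
finite cliques of the graph. -/
def ClosedGraph (C : ∀ (G : Type) [Group G], Prop) : Prop :=
  ∀ (G : Type) [Group G] (H : Subgroup G) [H.FiniteIndex] (K : Subgroup H) [K.Normal]
    (V : Type) [Nonempty V] (P : V → Type) [∀ v, Group (P v)] (Λ : SimpleGraph V)
    (θ : GP P Λ ≃* K),
    (∀ σ : Finset V, σ.Nonempty → Λ.IsClique (σ : Set V) →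
      ∃ B : Subgroup H, Lifts K B (paraG K θ (σ : Set V)) ∧ C B) → C G

/-- Let `K` be the free product of nontrivial groups `P v`, and let each element of `H` be the
product of an element of the normalizer of `P v` in `H` and an element of `K`, for each `v`; in
other words, the `K`-conjugacy class of the subgroup `P v` is invariant under conjugation by the
elements of `H`. If the normalizers are in the class, then `G` is. -/
def ClosedFree (C : ∀ (G : Type) [Group G], Prop) : Prop :=
  ∀ (G : Type) [Group G] (H : Subgroup G) [H.FiniteIndex] (K : Subgroup H) [K.Normal]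
    (V : Type) [Nonempty V] (P : V → Type) [∀ v, Group (P v)] [∀ v, Nontrivial (P v)]
    (θ : CoprodI P ≃* K),
    (∀ v : V, Subgroup.normalizer (factor K θ v : Set H) ⊔ K = ⊤) →
    (∀ v : V, C (Subgroup.normalizer (factor K θ v : Set H))) → C G

/-- Closure properties of the class `C` for groups with a normal subgroup which has a system of
retractions. -/
structure SysClosed (C : ∀ (G : Type) [Group G], Prop) : Prop where
  retr : ClosedRetr C
  localRel : ClosedLocal C
  graph : ClosedGraph C
  free : ClosedFree C

end Run7.h16.DS
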