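import Pool.Agent.Run7.h16.DS.Gen
import Pool.Agent.Run7.h16.LH.Final

/-!
Groups with a normal subgroup which is a quotient of a free product by local relations
-/

set_option linter.unusedSectionVars false
set_option linter.unusedVariables false

namespace Run7.h16.DS

open Finsupp Monoid Pool.Agent.Y483 Pool.Agent.Y110.KW Pool.Agent.Y75.MQ CategoryTheory
  DirectSum Pool.Agent.Y483.PW Pool.Agent.R615.KU Pointwise Run7.h16.LH Run7.h16.NV

noncomputable section

section Retr

variable {G B : Type} [Group G] [Group B]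

/-- A subgroup with a normal complement is a retract. -/
theorem exists_retr {G : Type} [Group G] (B N : Subgroup G) [N.Normal]
    (h1 : ∀ g : G, ∃ b ∈ B, b⁻¹ * g ∈ N) (h2 : ∀ b ∈ B, b ∈ N → b = 1) :
    ∃ f : G →* B, ∀ g, ((f g : B) : G)⁻¹ * g ∈ N := by
  let q : B →* G ⧸ N := (QuotientGroup.mk' N).comp B.subtype
  have hq : Function.Bijective q := by
    constructor
    · rw [← MonoidHom.ker_eq_bot_iff, eq_bot_iff]
      intro b hb
      have h3 : (b : G) ∈ N := (QuotientGroup.eq_one_iff _).mp hb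
      exact Subtype.ext (h2 b b.2 h3)
    · intro y
      obtain ⟨g, rfl⟩ := QuotientGroup.mk'_surjective N y
      obtain ⟨b, hb, hbg⟩ := h1 g
      exact ⟨⟨b, hb⟩, QuotientGroup.eq.mpr hbg⟩
  let e : B ≃* G ⧸ N := MulEquiv.ofBijective q hq
  refine ⟨e.symm.toMonoidHom.comp (QuotientGroup.mk' N), fun g => ?_⟩
  have h3 : q (e.symm (g : G ⧸ N)) = (g : G ⧸ N) := e.apply_symm_apply _
  exact QuotientGroup.eq.mp h3

end Retr

variable {V : Type} {P : V → Type} [∀ v, Group (P v)] {R : Set (CoprodI P)}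

variable {G : Type} [Group G] {K : Subgroup G} [K.Normal]

/-- The subgroup of `G` generated by the images of the factors with index in `S`. -/
def pK (θ : Quo R ≃* K) (S : Set V) : Subgroup G :=
  (para R S).map (K.subtype.comp θ.toMonoidHom)

/-- The subgroups `B σ` have quotient `G / K` and intersect `K` in the subgroup of `σ`. -/
def Compl (θ : Quo R ≃* K) (B : Finset V → Subgroup G) : Prop :=
  ∀ σ : Finset V, σ.Nonempty → (∀ u ∈ σ, ∀ v ∈ σ, u ≠ v → Linked R u v) →
    B σ ⊔ K = ⊤ ∧ B σ ⊓ K = pK θ (σ : Set V)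

variable (hR : IsLocal R) (θ : Quo R ≃* K) {B : Finset V → Subgroup G}

/-- Conjugation by the elements of `G`. -/
def cg (g : G) : Quo R →* Quo R :=
  θ.symm.toMonoidHom.comp ((cj K g).comp θ.toMonoidHom)

theorem cg_coe (g : G) (x : Quo R) : (θ (cg θ g x) : G) = g * θ x * g⁻¹ := by
  have h : θ (cg θ g x) = cj K g (θ x) := θ.apply_symm_apply _
  rw [h, cj_coe]

include hR in
theorem para_fix {S : Set V} {x : Quo R} (hx : x ∈ para R S) : ret hR S x = x := by
  rw [← ret_range hR] at hx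
  obtain ⟨y, rfl⟩ := hx
  rw [ret_ret, Set.inter_self]

theorem ret_mem_para (S : Set V) (x : Quo R) : ret hR S x ∈ para R S := by
  rw [← ret_range hR]
  exact ⟨x, rfl⟩

variable (hB : Compl θ B)

include hB in
theorem ret_cg (g : G) (S : Set V) (x : Quo R) :
    ret hR S (cg θ g x) = ret hR S (cg θ g (ret hR S x)) := by
  have h : (ret hR S).comp (cg θ g) = ((ret hR S).comp (cg θ g)).comp (ret hR S) := by
    apply quo_ext
    intro v x
    rw [MonoidHom.comp_apply, MonoidHom.comp_apply, MonoidHom.comp_apply]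
    by_cases hv : v ∈ S
    · rw [ret_fac_mem hR hv]
    · rw [ret_fac_notMem hR hv, map_one, map_one]
      obtain ⟨h1, h2⟩ := hB {v} (Finset.singleton_nonempty v) (fun a ha b hb hab =>
        absurd ((Finset.mem_singleton.mp ha).trans (Finset.mem_singleton.mp hb).symm) hab)
      rw [Finset.coe_singleton] at h2
      have hg : g ∈ ((K ⊔ B {v} : Subgroup G) : Set G) := by
        rw [sup_comm, h1]
        exact Subgroup.mem_top g
      rw [Subgroup.normal_mul] at hg
      obtain ⟨k, hk, b, hb, rfl⟩ := hg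
      have h3 : ((θ (fac R v x) : K) : G) ∈ B {v} ⊓ K := by
        rw [h2]
        exact ⟨fac R v x, fac_mem_para (Set.mem_singleton v) x, rfl⟩
      have h4 : b * (θ (fac R v x) : K) * b⁻¹ ∈ B {v} ⊓ K := by
        refine ⟨?_, ?_⟩
        · exact (B {v}).mul_mem ((B {v}).mul_mem hb h3.1) ((B {v}).inv_mem hb)
        · exact (inferInstance : K.Normal).conj_mem _ h3.2 b
      rw [h2] at h4
      obtain ⟨p, hp, hp2⟩ := h4
      have hp3 : ((θ p : K) : G) = b * (θ (fac R v x) : K) * b⁻¹ := hp2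
      obtain ⟨k', hk'⟩ := θ.surjective ⟨k, hk⟩
      have hk2 : ((θ k' : K) : G) = k := congrArg Subtype.val hk'
      have h5 : cg θ (k * b) (fac R v x) = k' * p * k'⁻¹ := by
        apply θ.injective
        apply Subtype.ext
        rw [cg_coe, map_mul, map_mul, map_inv, Subgroup.coe_mul, Subgroup.coe_mul,
          Subgroup.coe_inv, hk2, hp3]
        group
      have h6 : ret hR S p = 1 := by
        rw [← para_fix hR hp, ret_ret]
        have e : S ∩ {v} = ∅ := by
          rw [Set.inter_singleton_eq_empty]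
          exact hv
        rw [e, ret_empty]
      change ret hR S (cg θ (k * b) (fac R v x)) = 1
      rw [h5, map_mul, map_mul, h6, mul_one, map_inv, mul_inv_cancel]
  exact DFunLike.congr_fun h x

/-- The subgroup of `G` of the images of the elements killed by the retraction. -/
def Nk (S : Set V) : Subgroup G := (ret hR S).ker.map (K.subtype.comp θ.toMonoidHom)

include hB in
theorem Nk_normal (S : Set V) : (Nk hR θ S).Normal := by
  constructor
  rintro _ ⟨x, hx, rfl⟩ g
  refine ⟨cg θ g x, ?_, cg_coe θ g x⟩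
  have hx' : ret hR S x = 1 := hx
  change ret hR S (cg θ g x) = 1
  rw [ret_cg hR θ hB, hx', map_one, map_one]

include hB in
theorem exists_f (σ : Lk R) : ∃ f : G →* B σ.1, (∀ g, ((f g : B σ.1) : G)⁻¹ * g ∈ K) ∧
    ∀ x : Quo R, ((f (θ x) : B σ.1) : G) = θ (ret hR (σ.1 : Set V) x) := by
  obtain ⟨h1, h2⟩ := hB σ.1 σ.2.1 σ.2.2
  have : (Nk hR θ (σ.1 : Set V)).Normal := Nk_normal hR θ hB _
  have hdiff : ∀ x : Quo R, ((θ (ret hR (σ.1 : Set V) x) : K) : G)⁻¹ * θ x ∈
      Nk hR θ (σ.1 : Set V) := by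
    intro x
    refine ⟨(ret hR (σ.1 : Set V) x)⁻¹ * x, ?_, ?_⟩
    · change ret hR (σ.1 : Set V) ((ret hR (σ.1 : Set V) x)⁻¹ * x) = 1
      rw [map_mul, map_inv, ret_ret, Set.inter_self, inv_mul_cancel]
    · change ((θ ((ret hR (σ.1 : Set V) x)⁻¹ * x) : K) : G) = _
      rw [map_mul, map_inv]
      rfl
  have hmem : ∀ x : Quo R, ((θ (ret hR (σ.1 : Set V) x) : K) : G) ∈ B σ.1 := by
    intro x
    have h3 : ((θ (ret hR (σ.1 : Set V) x) : K) : G) ∈ B σ.1 ⊓ K := by
      rw [h2]
      exact ⟨_, ret_mem_para hR _ x, rfl⟩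
    exact h3.1
  have hone : ∀ b ∈ B σ.1, b ∈ Nk hR θ (σ.1 : Set V) → b = 1 := by
    rintro _ hb ⟨x, hx, rfl⟩
    have h3 : K.subtype.comp θ.toMonoidHom x ∈ B σ.1 ⊓ K := ⟨hb, (θ x).2⟩
    rw [h2] at h3
    obtain ⟨p, hp, hpx⟩ := h3
    have hpx' : p = x := θ.injective (Subtype.ext hpx)
    have h4 : ret hR (σ.1 : Set V) x = x := by
      rw [← hpx']
      exact para_fix hR hp
    have h5 : x = 1 := h4.symm.trans hx
    rw [h5, map_one]
  obtain ⟨f, hf⟩ := exists_retr (B σ.1) (Nk hR θ (σ.1 : Set V)) (fun g => by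
    have hg : g ∈ ((B σ.1 ⊔ K : Subgroup G) : Set G) := by
      rw [h1]
      exact Subgroup.mem_top g
    rw [Subgroup.mul_normal] at hg
    obtain ⟨b, hb, k, hk, rfl⟩ := hg
    obtain ⟨x, hx⟩ := θ.surjective ⟨k, hk⟩
    have hx2 : ((θ x : K) : G) = k := congrArg Subtype.val hx
    refine ⟨b * θ (ret hR (σ.1 : Set V) x), (B σ.1).mul_mem hb (hmem x), ?_⟩
    have h3 := hdiff x
    rw [hx2] at h3
    have e : (b * ((θ (ret hR (σ.1 : Set V) x) : K) : G))⁻¹ * (b * k) =
        ((θ (ret hR (σ.1 : Set V) x) : K) : G)⁻¹ * k := by group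
    change (b * ((θ (ret hR (σ.1 : Set V) x) : K) : G))⁻¹ * (b * k) ∈ _
    rw [e]
    exact h3) hone
  refine ⟨f, fun g => ?_, fun x => ?_⟩
  · obtain ⟨y, _, hy⟩ := hf g
    rw [← hy]
    exact (θ y).2
  · have h3 := hf (θ x)
    have h4 := (Nk hR θ (σ.1 : Set V)).mul_mem h3
      ((Nk hR θ (σ.1 : Set V)).inv_mem (hdiff x))
    have e : ((f (θ x) : B σ.1) : G)⁻¹ * θ x *
        (((θ (ret hR (σ.1 : Set V) x) : K) : G)⁻¹ * θ x)⁻¹ =
        ((f (θ x) : B σ.1) : G)⁻¹ * ((θ (ret hR (σ.1 : Set V) x) : K) : G) := by group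
    rw [e] at h4
    have h5 := hone _ ((B σ.1).mul_mem ((B σ.1).inv_mem (f (θ x)).2) (hmem x)) h4
    exact (inv_mul_eq_one.mp h5)

/-- The retraction on the kernel. -/
def eK (S : Set V) : K →* K :=
  θ.toMonoidHom.comp ((ret hR S).comp θ.symm.toMonoidHom)

theorem eK_eK (S T : Set V) : (eK hR θ S).comp (eK hR θ T) = eK hR θ (S ∩ T) := by
  apply MonoidHom.ext
  intro k
  change θ (ret hR S (θ.symm (θ (ret hR T (θ.symm k))))) = θ (ret hR (S ∩ T) (θ.symm k))
  rw [θ.symm_apply_apply, ret_ret]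

theorem eK_gen [Nonempty V] : GenBy (fun σ : Lk R => eK hR θ (σ.1 : Set V)) := by
  intro n x
  cases n with
  | zero =>
    obtain ⟨v⟩ := (inferInstance : Nonempty V)
    let τ : Lk R := ⟨{v}, Finset.singleton_nonempty v, fun a ha b hb hab =>
        absurd ((Finset.mem_singleton.mp ha).trans (Finset.mem_singleton.mp hb).symm) hab⟩
    exact Submodule.mem_iSup_of_mem τ ⟨x, hq_zero _ x⟩
  | succ n =>
    have hx : x = hqMap θ.toMonoidHom (n + 1) (hqMap θ.symm.toMonoidHom (n + 1) x) := by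
      rw [← hqMap_comp]
      have e : θ.toMonoidHom.comp θ.symm.toMonoidHom = MonoidHom.id K :=
        MonoidHom.ext fun k => θ.apply_symm_apply k
      rw [e, hqMap_id]
    have h1 := quo_gen hR n (hqMap θ.symm.toMonoidHom (n + 1) x)
    have h2 : ∀ y : HQ (n + 1) (Quo R),
        y ∈ ⨆ σ : Lk R, LinearMap.range (hqMap (ret hR (σ.1 : Set V)) (n + 1)) →
        hqMap θ.toMonoidHom (n + 1) y ∈ ⨆ σ : Lk R,
          LinearMap.range (hqMap (eK hR θ (σ.1 : Set V)) (n + 1)) := by
      intro y hy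
      induction hy using Submodule.iSup_induction' with
      | mem σ y hy =>
        obtain ⟨z, rfl⟩ := hy
        refine Submodule.mem_iSup_of_mem σ ⟨hqMap θ.toMonoidHom (n + 1) z, ?_⟩
        have e : (eK hR θ (σ.1 : Set V)).comp θ.toMonoidHom =
            θ.toMonoidHom.comp (ret hR (σ.1 : Set V)) := by
          apply MonoidHom.ext
          intro w
          change θ (ret hR (σ.1 : Set V) (θ.symm (θ w))) = θ (ret hR (σ.1 : Set V) w)
          rw [θ.symm_apply_apply]
        rw [← hqMap_comp, ← hqMap_comp, e]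
      | zero =>
        rw [map_zero]
        exact Submodule.zero_mem _
      | add a b _ _ ha hb =>
        rw [map_add]
        exact Submodule.add_mem _ ha hb
    rw [hx]
    exact h2 _ h1

include hR hB in
/-- The rational homology of `G` is detected by the retractions to the subgroups `B σ`. -/
theorem loc_hq [Nonempty V] (j : ℕ) (x : HQ j G) (hx : x ≠ 0) :
    ∃ (σ : Lk R) (f : G →* B σ.1), hqMap f j x ≠ 0 := by
  classical
  choose f hf1 hf2 using fun σ : Lk R => exists_f hR θ hB σ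
  by_contra hcon
  push Not at hcon
  apply hx
  have : Nonempty (Lk R) := by
    obtain ⟨v⟩ := (inferInstance : Nonempty V)
    exact ⟨⟨{v}, Finset.singleton_nonempty v, fun a ha b hb hab =>
        absurd ((Finset.mem_singleton.mp ha).trans (Finset.mem_singleton.mp hb).symm) hab⟩⟩
  refine sys_hq (π := QuotientGroup.mk' K) (K := K) (QuotientGroup.mk'_surjective K)
    (fun g => (QuotientGroup.eq_one_iff g).symm) (fun σ => (B σ.1).subtype.comp (f σ))
    (fun σ g => ?_) (fun σ => eK hR θ (σ.1 : Set V)) (fun σ k => ?_) (fun σ τ => ?_) (fun σ => ?_)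
    (fun σ τ => ?_) (eK_gen hR θ) j x (fun σ => ?_)
  · exact QuotientGroup.eq.mpr (hf1 σ g)
  · have h := hf2 σ (θ.symm k)
    rw [θ.apply_symm_apply] at h
    exact h.symm
  · rw [eK_eK, eK_eK, Set.inter_comm]
  · rw [eK_eK, Set.inter_self]
  · rcases (σ.1 ∩ τ.1).eq_empty_or_nonempty with h | h
    · right
      rw [eK_eK, ← Finset.coe_inter, h]
      apply MonoidHom.ext
      intro k
      change θ (ret hR ((∅ : Finset V) : Set V) (θ.symm k)) = 1
      rw [Finset.coe_empty, ret_empty, map_one]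
    · left
      refine ⟨⟨σ.1 ∩ τ.1, h, fun u hu v hv huv => σ.2.2 u (Finset.mem_inter.mp hu).1 v
        (Finset.mem_inter.mp hv).1 huv⟩, ?_⟩
      rw [eK_eK, Finset.coe_inter]
  · rw [hqMap_comp, hcon σ (f σ), map_zero]

end

end Run7.h16.DS
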