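import Pool.Agent.Run7.h16.DS.Def
import Pool.Agent.Run7.h16.DS.Loc

/-!
The closure properties for the class of the detecting groups
-/

set_option linter.unusedSectionVars false
set_option linter.unusedVariables false

namespace Run7.h16.DS

open CategoryTheory Monoid Pool.Agent.Y483 Pool.Agent.Y75.MQ Pool.Agent.Y483.PW
  Pool.Agent.Y110.KW Pool.Agent.R615.KU Run7.h16.NV Run7.h16.LH

noncomputable section

variable {ε : ℤˣ}

theorem detL_retr {G : Type} [Group G] (K : Subgroup G) [K.Normal] (I : Type) [Nonempty I]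
    (s : RetrSys K I) (h : ∀ i : I, DetL ε (s.f i).range) : DetL ε G := by
  apply detL_detect
  intro j x hx
  by_contra hcon
  push Not at hcon
  apply hx
  refine sys_hq (π := QuotientGroup.mk' K) (K := K) (QuotientGroup.mk'_surjective K)
    (fun g => (QuotientGroup.eq_one_iff g).symm) s.f (fun i g => QuotientGroup.eq.mpr (s.quot i g))
    s.e s.restr s.comm s.idem s.mul (fun n x => s.gen n x) j x (fun i => ?_)
  have e : s.f i = (s.f i).range.subtype.comp (s.f i).rangeRestrict := rfl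
  rw [e, hqMap_comp, hcon _ _ (s.f i).rangeRestrict (h i), map_zero]

theorem detL_loc {G : Type} [Group G] (K : Subgroup G) [K.Normal] {V : Type} [Nonempty V]
    {P : V → Type} [∀ v, Group (P v)] {R : Set (CoprodI P)} (hR : IsLocal R) (θ : Quo R ≃* K)
    (h : ∀ σ : Finset V, σ.Nonempty → (∀ u ∈ σ, ∀ v ∈ σ, u ≠ v → Linked R u v) →
      ∃ B : Subgroup G, Lifts K B ((para R (σ : Set V)).map (K.subtype.comp θ.toMonoidHom)) ∧
        DetL ε B) : DetL ε G := by
  classical
  let B : Finset V → Subgroup G := fun σ =>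
    if hσ : σ.Nonempty ∧ (∀ u ∈ σ, ∀ v ∈ σ, u ≠ v → Linked R u v) then
      (h σ hσ.1 hσ.2).choose else ⊤
  have hB : ∀ σ : Finset V, σ.Nonempty → (∀ u ∈ σ, ∀ v ∈ σ, u ≠ v → Linked R u v) →
      Lifts K (B σ) ((para R (σ : Set V)).map (K.subtype.comp θ.toMonoidHom)) ∧
        DetL ε (B σ) := by
    intro σ h1 h2
    have e : B σ = (h σ h1 h2).choose := dif_pos ⟨h1, h2⟩
    rw [e]
    exact (h σ h1 h2).choose_spec
  have hC : Compl θ B := fun σ h1 h2 => (hB σ h1 h2).1
  apply detL_detect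
  intro j x hx
  obtain ⟨σ, f, hf⟩ := loc_hq hR θ hC j x hx
  exact ⟨B σ.1, inferInstance, f, (hB σ.1 σ.2.1 σ.2.2).2, hf⟩

theorem detL_graph {G : Type} [Group G] (K : Subgroup G) [K.Normal] {V : Type} [Nonempty V]
    {P : V → Type} [∀ v, Group (P v)] (Λ : SimpleGraph V) (θ : GP P Λ ≃* K)
    (h : ∀ σ : Finset V, σ.Nonempty → Λ.IsClique (σ : Set V) →
      ∃ B : Subgroup G, Lifts K B
        ((para (graphRel Λ) (σ : Set V)).map (K.subtype.comp θ.toMonoidHom)) ∧ DetL ε B) :
    DetL ε G := by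
  refine detL_loc K (graphRel_local Λ) θ fun σ h1 h2 => h σ h1 ?_
  intro a ha b hb hab
  exact graphRel_linked Λ hab (h2 a ha b hb hab)

theorem empty_local {V : Type} (P : V → Type) [∀ v, Group (P v)] :
    IsLocal (∅ : Set (CoprodI P)) := fun r hr => absurd hr (Set.notMem_empty r)

theorem detL_free {G : Type} [Group G] (K : Subgroup G) [K.Normal] {V : Type} [Nonempty V]
    {P : V → Type} [∀ v, Group (P v)] (θ : CoprodI P ≃* K)
    (h : ∀ v : V, ∃ B : Subgroup G, Lifts K B
      ((K.subtype.comp θ.toMonoidHom).comp (CoprodI.of : P v →* CoprodI P)).range ∧ DetL ε B) :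
    DetL ε G := by
  have e0 : Subgroup.normalClosure (∅ : Set (CoprodI P)) = ⊥ := Subgroup.normalClosure_empty
  let q : Quo (∅ : Set (CoprodI P)) ≃* CoprodI P :=
    (QuotientGroup.quotientMulEquivOfEq e0).trans QuotientGroup.quotientBot
  have hq : ∀ v (x : P v), q (fac (∅ : Set (CoprodI P)) v x) = CoprodI.of x := by
    intro v x
    rfl
  refine detL_loc K (empty_local P) (q.trans θ) fun σ h1 h2 => ?_
  obtain ⟨v, hv⟩ := h1
  have hσ : σ = {v} := by
    apply Finset.eq_singleton_iff_unique_mem.mpr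
    refine ⟨hv, fun u hu => ?_⟩
    by_contra huv
    obtain ⟨r, hr, _⟩ := h2 u hu v hv huv
    exact hr
  obtain ⟨B, hB1, hB2⟩ := h v
  refine ⟨B, ?_, hB2⟩
  have e : (para (∅ : Set (CoprodI P)) (σ : Set V)).map
      (K.subtype.comp (q.trans θ).toMonoidHom) =
      ((K.subtype.comp θ.toMonoidHom).comp (CoprodI.of : P v →* CoprodI P)).range := by
    rw [hσ, Finset.coe_singleton]
    have e1 : para (∅ : Set (CoprodI P)) {v} = (fac (∅ : Set (CoprodI P)) v).range := by
      unfold para
      simp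
    rw [e1, MonoidHom.map_range]
    congr 1
  rw [e]
  exact hB1

end

end Run7.h16.DS
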