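import Pool.Agent.Run7.h16.DS.Final

/-!
Normal subgroups which are free products
-/

set_option linter.unusedSectionVars false
set_option linter.unusedVariables false

namespace Run7.h16.DS

open CategoryTheory Monoid Pool.Agent.Y483 Pool.Agent.Y75.MQ Pool.Agent.Y483.PW
  Pool.Agent.Y110.KW Pool.Agent.R615.KU Run7.h16.NV Run7.h16.LH

noncomputable section

theorem norm_factor {V : Type} {P : V → Type} [∀ v, Group (P v)] (v : V) (w : CoprodI P)
    (x y : P v) (hx : x ≠ 1)
    (h : w * (CoprodI.of x : CoprodI P) * w⁻¹ = CoprodI.of y) :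
    w ∈ (CoprodI.of : P v →* CoprodI P).range := by
  classical
  set p := CoprodI.Word.equivPair v (CoprodI.Word.equiv w⁻¹) with hp
  have hw : w⁻¹ = CoprodI.of p.head * p.tail.prod := by
    have h1 : CoprodI.Word.rcons p = CoprodI.Word.equiv w⁻¹ :=
      (CoprodI.Word.equivPair v).symm_apply_apply _
    rw [← CoprodI.Word.prod_rcons, h1]
    exact (CoprodI.Word.equiv.symm_apply_apply w⁻¹).symm
  have hw2 : w = p.tail.prod⁻¹ * (CoprodI.of p.head)⁻¹ := by
    rw [← mul_inv_rev, ← hw, inv_inv]
  by_cases hemp : p.tail = CoprodI.Word.empty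
  · rw [hw2, hemp, CoprodI.Word.prod_empty, inv_one, one_mul, ← map_inv]
    exact ⟨_, rfl⟩
  · exfalso
    obtain ⟨i, j, w', hw'⟩ := CoprodI.NeWord.of_word p.tail hemp
    have hi : i ≠ v := by
      rintro rfl
      apply p.fstIdx_ne
      rw [← hw']
      unfold CoprodI.Word.fstIdx
      change (w'.toList.head?).map Sigma.fst = _
      rw [CoprodI.NeWord.toList_head?]
      rfl
    have hz : p.head⁻¹ * x * p.head ≠ 1 := by
      intro h1
      apply hx
      have h2 : x = p.head * (p.head⁻¹ * x * p.head) * p.head⁻¹ := by group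
      rw [h2, h1, mul_one, mul_inv_cancel]
    have hy : y ≠ 1 := by
      rintro rfl
      rw [map_one, mul_inv_eq_one, mul_eq_left] at h
      apply hx
      apply CoprodI.of_injective v
      rw [h, map_one]
    let N : CoprodI.NeWord P j j :=
      (w'.inv.append hi (CoprodI.NeWord.singleton _ hz)).append hi.symm w'
    have hN : N.prod = (CoprodI.NeWord.singleton y hy).prod := by
      have hpt : w'.prod = p.tail.prod := by
        unfold CoprodI.NeWord.prod
        rw [hw']
      rw [CoprodI.NeWord.append_prod, CoprodI.NeWord.append_prod, CoprodI.NeWord.inv_prod,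
        CoprodI.NeWord.prod_singleton, CoprodI.NeWord.prod_singleton, hpt, ← h, hw2, map_mul,
        map_mul, map_inv]
      group
    have hN2 : N.toWord = (CoprodI.NeWord.singleton y hy).toWord :=
      CoprodI.Word.equiv.symm.injective hN
    have hN3 : N.toList = [⟨v, y⟩] := congrArg CoprodI.Word.toList hN2
    have hN4 : (w'.inv.toList ++ [⟨v, p.head⁻¹ * x * p.head⟩]) ++ w'.toList = [⟨v, y⟩] := hN3
    have hN5 := congrArg List.length hN4
    rw [List.length_append, List.length_append, List.length_singleton, List.length_singleton] at hN5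
    have h6 := List.length_pos_of_ne_nil w'.toList_ne_nil
    have h7 := List.length_pos_of_ne_nil w'.inv.toList_ne_nil
    omega

theorem detL_norm {ε : ℤˣ} {G : Type} [Group G] (K : Subgroup G) [K.Normal] {V : Type}
    [Nonempty V] {P : V → Type} [∀ v, Group (P v)] [∀ v, Nontrivial (P v)] (θ : CoprodI P ≃* K)
    (h1 : ∀ v : V, Subgroup.normalizer (factor K θ v : Set G) ⊔ K = ⊤)
    (h2 : ∀ v : V, DetL ε (Subgroup.normalizer (factor K θ v : Set G))) : DetL ε G := by
  refine detL_free K θ fun v => ⟨Subgroup.normalizer (factor K θ v : Set G), ⟨h1 v, ?_⟩, h2 v⟩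
  apply le_antisymm
  · rintro b ⟨hb1, hb2⟩
    obtain ⟨w, hw⟩ := θ.surjective ⟨b, hb2⟩
    have hw2 : ((θ w : K) : G) = b := congrArg Subtype.val hw
    obtain ⟨x, hx⟩ := exists_ne (1 : P v)
    have h3 : b * ((θ (CoprodI.of x) : K) : G) * b⁻¹ ∈ factor K θ v :=
      (Subgroup.mem_normalizer_iff.mp hb1 _).mp ⟨x, rfl⟩
    obtain ⟨y, hy⟩ := h3
    have hy2 : ((θ (CoprodI.of y) : K) : G) = b * ((θ (CoprodI.of x) : K) : G) * b⁻¹ := hy
    have h4 : w * (CoprodI.of x : CoprodI P) * w⁻¹ = CoprodI.of y := by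
      apply θ.injective
      apply Subtype.ext
      rw [hy2, map_mul, map_mul, map_inv, Subgroup.coe_mul, Subgroup.coe_mul, Subgroup.coe_inv,
        hw2]
    obtain ⟨z, hz⟩ := norm_factor v w x y hx h4
    refine ⟨z, ?_⟩
    rw [← hw2, ← hz]
    rfl
  · intro b hb
    refine ⟨Subgroup.le_normalizer hb, ?_⟩
    obtain ⟨z, rfl⟩ := hb
    exact (θ _).2

theorem sysClosed_detL (ε : ℤˣ) : SysClosed (fun G _ => DetL ε G) := by
  have hov : ∀ (G : Type) [Group G] (H : Subgroup G) [H.FiniteIndex], DetL ε H → DetL ε G :=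
    (closed_detL ε).overgroup
  constructor
  · intro G _ H _ K _ I _ s h
    exact hov G H (detL_retr K I s h)
  · intro G _ H _ K _ V _ P _ R hR θ h
    exact hov G H (detL_loc K hR θ h)
  · intro G _ H _ K _ V _ P _ Λ θ h
    exact hov G H (detL_graph K Λ θ h)
  · intro G _ H _ K _ V _ P _ _ θ h1 h2
    exact hov G H (detL_norm K θ h1 h2)

end

end Run7.h16.DS
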