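import Pool.Agent.Run7.h16.DS.Idem
import Pool.Agent.R615.KU.Gp

/-!
The rational homology of quotients of free products by local relations is generated by the images
of the parabolic retractions
-/

set_option linter.unusedSectionVars false
set_option linter.unusedVariables false

namespace Run7.h16.DS

open Finsupp Monoid Pool.Agent.Y483 Pool.Agent.Y110.KW Pool.Agent.Y75.MQ CategoryTheory
  DirectSum Pool.Agent.Y483.PW Pool.Agent.R615.KU Pointwise

noncomputable section

variable {V : Type} {P : V → Type} [∀ v, Group (P v)] {R : Set (CoprodI P)}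

/-- The nonempty finite sets of indices any two of which are linked. -/
def Lk (R : Set (CoprodI P)) : Type :=
  {σ : Finset V // σ.Nonempty ∧ ∀ u ∈ σ, ∀ v ∈ σ, u ≠ v → Linked R u v}

theorem hq_zero {G : Type} [Group G] (f : G →* G) (x : HQ 0 G) : hqMap f 0 x = x := by
  obtain ⟨z, hz⟩ := exists_rpr (Rep.trivial ℚ G ℚ) 0 x
  have h1 := (hz.hq f).sub hz
  rw [mp_zero_eq f id, mp_id, sub_self] at h1
  rw [← sub_eq_zero]
  exact h1.eq_zero_iff.mpr (Submodule.zero_mem _)

theorem quo_gen (hR : IsLocal R) (n : ℕ) (x : HQ (n + 1) (Quo R)) :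
    x ∈ ⨆ σ : Lk R, LinearMap.range (hqMap (ret hR (σ.1 : Set V)) (n + 1)) := by
  classical
  let _ := unitAct V
  have hP : Permutes (1 : Unit →* MulAut (CoprodI P)) := fun _ _ x => ⟨x, rfl⟩
  have hI : Preserves (1 : Unit →* MulAut (CoprodI P)) R := fun _ _ hr => hr
  let s := locSys hR hP hI
  have hadj : s.IsAdj (Linked R) := locSys_adj hR hP hI
  have h2 : ∀ (γ : Unit) (n : Quo R), qAct hI γ n = n := by
    intro γ n
    obtain ⟨y, rfl⟩ := QuotientGroup.mk_surjective n
    rfl
  let r : s.G →* Quo R :=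
    { toFun := fun w => w.left
      map_one' := rfl
      map_mul' := fun a b => by
        change a.left * qAct hI a.right b.left = _
        rw [h2] }
  let i : Quo R →* s.G := SemidirectProduct.inl
  have hri : r.comp i = MonoidHom.id _ := rfl
  obtain ⟨I, y, hy⟩ := s.span_basQ (n + 1) (hqMap i (n + 1) x)
  have hx : x = hqMap r (n + 1) (hqMap i (n + 1) x) := by
    rw [← hqMap_comp, hri]
    exact (hqMap_id _ _ _).symm
  rw [hx, hy, map_sum]
  apply Submodule.sum_mem
  intro σ _
  by_cases hσ : ∀ u ∈ σ, ∀ v ∈ σ, u ≠ v → Linked R u v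
  · unfold Sys.basQ
    rw [map_sum]
    apply Submodule.sum_mem
    intro U hU
    rw [map_smul]
    apply Submodule.smul_mem
    have hUσ := Finset.mem_powerset.mp hU
    have hfix : s.Fix (s.fixG σ).subtype σ := fun l v hv => l.2 v hv
    have hcut : r.comp (s.cutT (s.fixG σ).subtype (U : Set V)) =
        (ret hR (U : Set V)).comp (r.comp (s.fixG σ).subtype) := by
      apply MonoidHom.ext
      intro l
      rw [MonoidHom.comp_apply, s.cutT_apply _ _ (hfix.smul s hUσ)]
      rfl
    rw [← hqMap_comp, hcut]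
    rcases U.eq_empty_or_nonempty with hU0 | hU0
    · have h0 : (ret hR (U : Set V)).comp (r.comp (s.fixG σ).subtype) = 1 := by
        apply MonoidHom.ext
        intro l
        subst hU0
        rw [MonoidHom.comp_apply, Finset.coe_empty, ret_empty]
        rfl
      rw [h0, hqMap_one]
      exact Submodule.zero_mem _
    · rw [hqMap_comp]
      let τ : Lk R := ⟨U, hU0, fun u hu v hv huv => hσ u (hUσ hu) v (hUσ hv) huv⟩
      exact Submodule.mem_iSup_of_mem τ ⟨_, rfl⟩
  · push Not at hσ
    obtain ⟨u, hu, v, hv, huv, hA⟩ := hσ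
    rw [Pool.Agent.Y949.PW.basQ_eq_zero s σ u v hu hv huv (hadj.amal u v huv hA), map_zero]
    exact Submodule.zero_mem _

end

end Run7.h16.DS
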