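import Pool.Agent.Run7.h16.DS.Prin

/-!
Detection by commuting idempotent endomorphisms over the quotient
-/

set_option linter.unusedSectionVars false
set_option linter.unusedVariables false

namespace Run7.h16.DS

open Finsupp Pool.Agent.Y483 Run7.h16.LH

noncomputable section

section Ops

variable {K : Type} [Group K] {I : Type} (e : I → (K →* K)) {M : Type} [AddCommGroup M] [Module ℚ M]

/-- The product of the operators `1 - e_i` on chains. -/
def Dl (n : ℕ) : List I → (T n K M →ₗ[ℚ] T n K M)
  | [] => LinearMap.id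
  | i :: l => Dl n l - (Dl n l) ∘ₗ (mp n (e i) LinearMap.id)

theorem Dl_nil (n : ℕ) (z : T n K M) : Dl e n [] z = z := rfl

theorem Dl_cons (n : ℕ) (i : I) (l : List I) (z : T n K M) :
    Dl e n (i :: l) z = Dl e n l z - Dl e n l (mp n (e i) LinearMap.id z) := rfl

theorem Dl_coef {M' : Type} [AddCommGroup M'] [Module ℚ M'] (θ : M →ₗ[ℚ] M') (n : ℕ) (l : List I)
    (z : T n K M) : Dl e n l (mp n id θ z) = mp n id θ (Dl e n l z) := by
  induction l generalizing z with
  | nil => rfl
  | cons i l ih =>
    have h : mp n (e i) LinearMap.id (mp n id θ z) =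
        mp n id θ (mp n (e i) LinearMap.id z) := by
      rw [mp_mp, mp_mp]
      rfl
    rw [Dl_cons, Dl_cons, h, ih, ih, map_sub]

theorem Dl_range (n : ℕ) (l : List I) (z : T n K M)
    (hz : z ∈ LinearMap.range (dd (trivR K M) n)) :
    Dl e n l z ∈ LinearMap.range (dd (trivR K M) n) := by
  induction l generalizing z with
  | nil => exact hz
  | cons i l ih =>
    rw [Dl_cons]
    exact Submodule.sub_mem _ (ih z hz) (ih _ (range_mp (ρ := trivR K M) (τ := trivR K M) (e i)
      LinearMap.id (fun _ _ => rfl) n z hz))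

variable (hcomm : ∀ i j, (e i).comp (e j) = (e j).comp (e i))
  (hidem : ∀ i, (e i).comp (e i) = e i)

include hcomm hidem in
theorem Dl_kill (n : ℕ) (i : I) (l : List I) (hi : i ∈ l) (z : T n K M) :
    Dl e n l (mp n (e i) LinearMap.id z) = 0 := by
  induction l generalizing z with
  | nil => exact absurd hi List.not_mem_nil
  | cons k l ih =>
    have hsw : mp n (e k) LinearMap.id (mp n (e i) LinearMap.id z) =
        mp n (e i) LinearMap.id (mp n (e k) LinearMap.id z) := by
      rw [mp_mp, mp_mp, ← MonoidHom.coe_comp, ← MonoidHom.coe_comp, hcomm]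
    rw [Dl_cons]
    by_cases h : i ∈ l
    · rw [hsw, ih h, ih h, sub_zero]
    · have hk : i = k := by
        rcases List.mem_cons.mp hi with h1 | h1
        · exact h1
        · exact absurd h1 h
      subst hk
      rw [mp_mp, ← MonoidHom.coe_comp, hidem]
      exact sub_self _

/-- If the classes are sums of images of the `e_i`, then a product of the operators kills them. -/
def GenBy (e : I → (K →* K)) : Prop :=
  ∀ (n : ℕ) (x : HQ n K), x ∈ ⨆ i, LinearMap.range (hqMap (e i) n)

theorem rpr_range {n : ℕ} {b b' : T n K ℚ} {x : HQ n K} (h : Rpr (Rep.trivial ℚ K ℚ) n b x)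
    (h' : Rpr (Rep.trivial ℚ K ℚ) n b' x) : b - b' ∈ LinearMap.range (dd (trivR K ℚ) n) := by
  have h1 := h.sub h'
  rw [sub_self] at h1
  exact h1.eq_zero_iff.mp rfl

include hcomm hidem in
theorem gen_chain (hgen : GenBy e) (n : ℕ) (b : T n K ℚ) (hb : Cyc (trivR K ℚ) n b) :
    ∃ l0 : List I, ∀ l : List I, l0 ⊆ l → Dl e n l b ∈ LinearMap.range (dd (trivR K ℚ) n) := by
  obtain ⟨c, hc⟩ := exists_class (A := Rep.trivial ℚ K ℚ) n b hb
  have key : ∀ x : HQ n K, x ∈ ⨆ i, LinearMap.range (hqMap (e i) n) → ∀ b : T n K ℚ,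
      Rpr (Rep.trivial ℚ K ℚ) n b x →
      ∃ l0 : List I, ∀ l : List I, l0 ⊆ l →
        Dl e n l b ∈ LinearMap.range (dd (trivR K ℚ) n) := by
    intro x hx
    induction hx using Submodule.iSup_induction' with
    | mem i x hx =>
      intro b hb
      obtain ⟨x', rfl⟩ := hx
      obtain ⟨b', hb'⟩ := exists_rpr (Rep.trivial ℚ K ℚ) n x'
      refine ⟨[i], fun l hl => ?_⟩
      have h1 := rpr_range hb (hb'.hq (e i))
      have h2 := Dl_range e n l _ h1
      rw [map_sub, Dl_kill e hcomm hidem n i l (hl (List.mem_singleton.mpr rfl)), sub_zero] at h2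
      exact h2
    | zero =>
      intro b hb
      refine ⟨[], fun l _ => Dl_range e n l _ ?_⟩
      exact hb.eq_zero_iff.mp rfl
    | add x y _ _ hx hy =>
      intro b hb
      obtain ⟨bx, hbx⟩ := exists_rpr (Rep.trivial ℚ K ℚ) n x
      obtain ⟨by', hby⟩ := exists_rpr (Rep.trivial ℚ K ℚ) n y
      obtain ⟨l1, h1⟩ := hx bx hbx
      obtain ⟨l2, h2⟩ := hy by' hby
      refine ⟨l1 ++ l2, fun l hl => ?_⟩
      have h3 := rpr_range hb (hbx.add hby)
      have h4 := Dl_range e n l _ h3
      rw [map_sub, map_add] at h4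
      have h5 := Submodule.add_mem _ h4 (Submodule.add_mem _
        (h1 l (fun i hi => hl (List.mem_append_left _ hi)))
        (h2 l (fun i hi => hl (List.mem_append_right _ hi))))
      rwa [sub_add_cancel] at h5
  exact key c (hgen n c) b hc

end Ops

variable {G Q : Type} [Group G] [Group Q] {π : G →* Q} {K : Subgroup G} [K.Normal] {I : Type}

/-- The endomorphisms `f i`, as homomorphisms over the quotient. -/
inductive Fam (π : G →* Q) (f : I → (G →* G)) :
    ∀ (B : Type) [Group B], (B →* Q) → (G →* B) → Prop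
  | mk (i : I) : Fam π f G π (f i)

theorem mp_zero_eq {X Y M : Type*} [AddCommGroup M] [Module ℚ M] (f g : X → Y) (z : T 0 X M) :
    mp 0 f LinearMap.id z = mp 0 g LinearMap.id z := by
  have h : mp 0 f (LinearMap.id : M →ₗ[ℚ] M) = mp 0 g LinearMap.id := by
    apply T_ext
    intro x m
    rw [mp_single, mp_single]
    congr 1
    funext i
    exact i.elim0
  rw [h]

theorem second_idem [Nonempty I] (hK : ∀ g, g ∈ K ↔ π g = 1) (f : I → (G →* G))
    (e : I → (K →* K)) (he : ∀ i k, ((e i k : K) : G) = f i k)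
    (hcomm : ∀ i j, (e i).comp (e j) = (e j).comp (e i))
    (hidem : ∀ i, (e i).comp (e i) = e i)
    (hmul : ∀ i j, (∃ l, (e i).comp (e j) = e l) ∨ (e i).comp (e j) = 1)
    (hgen : GenBy e) : Second π K (Fam π f) := by
  intro M _ _ ρ n y hy h
  have h' : ∀ i, mp n (f i) LinearMap.id (mp n K.subtype LinearMap.id y) ∈
      LinearMap.range (dd (ρ.comp π) n) := fun i => h G π (f i) (Fam.mk i)
  have hfe : ∀ (i : I) (y : T n K M), mp n (f i) LinearMap.id (mp n K.subtype LinearMap.id y) =
      mp n K.subtype LinearMap.id (mp n (e i) LinearMap.id y) := by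
    intro i y
    rw [mp_mp, mp_mp]
    congr 2
    funext k
    exact (he i k).symm
  have hι : ∀ y : T n K M, y ∈ LinearMap.range (dd (trivR K M) n) →
      mp n K.subtype LinearMap.id y ∈ LinearMap.range (dd (ρ.comp π) n) := fun y hy =>
    range_mp (ρ := trivR K M) (τ := ρ.comp π) K.subtype LinearMap.id (fun g m => by
      change m = ρ (π g) m
      rw [(hK _).mp g.2, map_one]
      rfl) n y hy
  cases n with
  | zero =>
    obtain ⟨i⟩ := (inferInstance : Nonempty I)
    have h1 := h' i
    rw [mp_zero_eq (f i) id, mp_id] at h1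
    exact h1
  | succ n =>
    -- the operators do not change the image in the homology of `G`
    have key : ∀ (l : List I) (y : T (n + 1) K M), Cyc (trivR K M) (n + 1) y →
        (∀ i, mp (n + 1) K.subtype LinearMap.id (mp (n + 1) (e i) LinearMap.id y) ∈
          LinearMap.range (dd (ρ.comp π) (n + 1))) →
        mp (n + 1) K.subtype LinearMap.id (Dl e (n + 1) l y) -
          mp (n + 1) K.subtype LinearMap.id y ∈ LinearMap.range (dd (ρ.comp π) (n + 1)) := by
      intro l
      induction l with
      | nil =>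
        intro y _ _
        rw [Dl_nil, sub_self]
        exact Submodule.zero_mem _
      | cons i l ih =>
        intro y hy hey
        have hcy : Cyc (trivR K M) (n + 1) (mp (n + 1) (e i) LinearMap.id y) :=
          cyc_mp (ρ := trivR K M) (τ := trivR K M) (e i) LinearMap.id (fun _ _ => rfl) (n + 1) y hy
        have h1 := ih y hy hey
        have h2 := ih _ hcy (fun j => by
          have e1 : mp (n + 1) (e j) LinearMap.id (mp (n + 1) (e i) LinearMap.id y) =
              mp (n + 1) ((e j).comp (e i)) LinearMap.id y := by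
            rw [mp_mp]
            rfl
          rw [e1]
          rcases hmul j i with ⟨l, hl⟩ | hl
          · rw [hl]
            exact hey l
          · rw [hl]
            exact hι _ (one_range (trivR K M) (fun _ => rfl) (trivR K M) (fun _ => rfl) n y
              ((cyc_succ _ _ _).mp hy)))
        have h3 := Submodule.sub_mem _ (Submodule.sub_mem _ h1 h2) (hey i)
        rw [Dl_cons, map_sub]
        convert h3 using 1
        abel
    -- a product of the operators kills the class
    obtain ⟨F, hF⟩ := decomp (Module.Basis.ofVectorSpace ℚ M) (LinearMap.id : M →ₗ[ℚ] M) y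
    have hcyb : ∀ i, Cyc (trivR K ℚ) (n + 1)
        (mp (n + 1) id ((Module.Basis.ofVectorSpace ℚ M).coord i) y) := fun i =>
      cyc_mp (ρ := trivR K M) (τ := trivR K ℚ) (MonoidHom.id K) _ (fun _ _ => rfl) (n + 1) y hy
    choose L hL using fun i => gen_chain e hcomm hidem hgen (n + 1) _ (hcyb i)
    let l := F.toList.flatMap L
    have hl : ∀ i ∈ F, L i ⊆ l := fun i hi j hj =>
      List.mem_flatMap.mpr ⟨i, Finset.mem_toList.mpr hi, hj⟩
    have hDy : Dl e (n + 1) l y ∈ LinearMap.range (dd (trivR K M) (n + 1)) := by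
      have e1 : mp (n + 1) id (LinearMap.id : M →ₗ[ℚ] M) y = y := mp_id _ _
      rw [e1] at hF
      rw [hF, map_sum]
      apply Submodule.sum_mem
      intro i hi
      rw [Dl_coef]
      exact range_mp (ρ := trivR K ℚ) (τ := trivR K M) (MonoidHom.id K) (ts _) (fun _ _ => rfl)
        (n + 1) _ (hL i l (hl i hi))
    have h1 := key l y hy (fun i => by
      rw [← hfe]
      exact h' i)
    have h2 := Submodule.sub_mem _ (hι _ hDy) h1
    rwa [sub_sub_cancel] at h2

/-- **Detection by a system of endomorphisms** over the quotient. -/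
theorem sys_hq [Nonempty I] (hπ : Function.Surjective π) (hK : ∀ g, g ∈ K ↔ π g = 1)
    (f : I → (G →* G)) (hf : ∀ i g, π (f i g) = π g)
    (e : I → (K →* K)) (he : ∀ i k, ((e i k : K) : G) = f i k)
    (hcomm : ∀ i j, (e i).comp (e j) = (e j).comp (e i))
    (hidem : ∀ i, (e i).comp (e i) = e i)
    (hmul : ∀ i j, (∃ l, (e i).comp (e j) = e l) ∨ (e i).comp (e j) = 1)
    (hgen : GenBy e) (j : ℕ) (x : HQ j G) (h : ∀ i, hqMap (f i) j x = 0) : x = 0 := by
  refine prin_hq (P := Fam π f) hπ hK ?_ (second_idem hK f e he hcomm hidem hmul hgen) j x ?_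
  · intro B _ p f' hf'
    cases hf' with
    | mk i => exact hf i
  · intro B _ p f' hf'
    cases hf' with
    | mk i => exact h i

end

end Run7.h16.DS
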