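import Pool.Agent.Run7.h16.LH.Ind

/-!
Detection of the homology of an extension by homomorphisms over the quotient
-/

set_option linter.unusedSectionVars false
set_option linter.unusedVariables false

namespace Run7.h16.DS

open Finsupp Pool.Agent.Y483 Run7.h16.LH

noncomputable section

variable {G Q : Type} [Group G] [Group Q] {π : G →* Q} {K : Subgroup G} [K.Normal]
  {P : ∀ (B : Type) [Group B], (B →* Q) → (G →* B) → Prop}

/-- Cycles of `K` that die in all the groups `B` die in `G`. -/
def Second (π : G →* Q) (K : Subgroup G)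
    (P : ∀ (B : Type) [Group B], (B →* Q) → (G →* B) → Prop) : Prop :=
  ∀ (M : Type) [AddCommGroup M] [Module ℚ M] (ρ : Representation ℚ Q M) (n : ℕ) (y : T n K M),
    Cyc (trivR K M) n y → (∀ (B : Type) [Group B] (p : B →* Q) (f : G →* B), P B p f →
      mp n f LinearMap.id (mp n K.subtype LinearMap.id y) ∈ LinearMap.range (dd (ρ.comp p) n)) →
    mp n K.subtype LinearMap.id y ∈ LinearMap.range (dd (ρ.comp π) n)

theorem prin (hπ : Function.Surjective π) (hK : ∀ g, g ∈ K ↔ π g = 1)
    (hP : ∀ (B : Type) [Group B] (p : B →* Q) (f : G →* B), P B p f → ∀ g, p (f g) = π g)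
    (hsec : Second π K P) (n : ℕ) :
    ∀ (M : Type) [AddCommGroup M] [Module ℚ M] (ρ : Representation ℚ Q M) (z : T n G M),
    Cyc (ρ.comp π) n z → (∀ (B : Type) [Group B] (p : B →* Q) (f : G →* B), P B p f →
      mp n f LinearMap.id z ∈ LinearMap.range (dd (ρ.comp p) n)) →
    z ∈ LinearMap.range (dd (ρ.comp π) n) := by
  induction n with
  | zero =>
    intro M _ _ ρ z _ h
    have e1 : mp 0 K.subtype LinearMap.id (mp 0 (fun _ => (1 : K)) LinearMap.id z) = z := by
      rw [mp_mp]
      have e2 : mp 0 (K.subtype ∘ fun _ : G => (1 : K))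
          ((LinearMap.id : M →ₗ[ℚ] M) ∘ₗ (LinearMap.id : M →ₗ[ℚ] M)) =
            (LinearMap.id : T 0 G M →ₗ[ℚ] _) := by
        apply T_ext
        intro x m
        rw [mp_single]
        change single _ m = single _ m
        congr 1
        funext i
        exact i.elim0
      rw [e2]
      rfl
    have h1 := hsec M ρ 0 (mp 0 (fun _ => (1 : K)) LinearMap.id z) (Cyc.zero _ _)
      (fun B _ p f hf => by rw [e1]; exact h B p f hf)
    rwa [e1] at h1
  | succ n ih =>
    intro M _ _ ρ z hz h
    have hz0 := hz
    rw [cyc_succ] at hz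
    -- the lift of the cycle
    set zt : T (n + 1) G (Q →₀ M) := mp (n + 1) id (lsingle (1 : Q)) z with hzt
    set kt := dd ((indRep ρ).comp π) n zt with hkt
    have hkt0 : mp n id (augM Q M) kt = 0 := by
      rw [hkt, ← dd_aug, hzt, aug_lift, hz]
    set k := mp n id (retr Q M) kt with hk
    have hιk : mp n id (Ker Q M).subtype k = kt := lift_ker n kt hkt0
    have hkcyc : Cyc ((kerRep ρ).comp π) n k := by
      cases n with
      | zero => exact Cyc.zero _ _
      | succ n =>
        rw [cyc_succ]
        apply sub_inj n G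
        rw [← dd_sub, hιk, hkt, dd_dd, map_zero]
    -- the images of `k` bound
    have hkA : ∀ (B : Type) [Group B] (p : B →* Q) (f : G →* B), P B p f →
        mp n f LinearMap.id k ∈ LinearMap.range (dd ((kerRep ρ).comp p) n) := by
      intro B _ p f hf
      have hpf := hP B p f hf
      obtain ⟨v, hv⟩ := h B p f hf
      set y := mp (n + 1) f LinearMap.id zt -
        dd ((indRep ρ).comp p) (n + 1) (mp (n + 2) id (lsingle (1 : Q)) v) with hy
      have hy0 : mp (n + 1) id (augM Q M) y = 0 := by
        have e1 : mp (n + 1) id (augM Q M) (dd ((indRep ρ).comp p) (n + 1)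
            (mp (n + 2) id (lsingle (1 : Q)) v)) = dd (ρ.comp p) (n + 1) v := by
          rw [← dd_aug, aug_lift]
        have e2 : mp (n + 1) id (augM Q M) (mp (n + 1) f LinearMap.id zt) =
            mp (n + 1) f LinearMap.id z := by
          rw [mp_mp, hzt, mp_mp]
          congr 2
          apply LinearMap.ext
          intro m
          exact augM_single 1 m
        rw [hy, map_sub, e1, e2, hv, sub_self]
      refine ⟨mp (n + 1) id (retr Q M) y, ?_⟩
      apply sub_inj n B
      rw [← dd_sub, lift_ker (n + 1) y hy0, hy, map_sub, dd_dd, sub_zero]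
      have e4 : dd ((indRep ρ).comp p) n
          (mp (n + 1) f LinearMap.id zt) = mp n f LinearMap.id kt :=
        dd_mp (ρ := (indRep ρ).comp π) (τ := (indRep ρ).comp p)
          f LinearMap.id (fun g m => by
            change indRep ρ (π g) m = indRep ρ (p (f g)) m
            rw [hpf]) n zt
      have e5 : ∀ k' : T n G (Ker Q M),
          mp n f LinearMap.id (mp n id (Ker Q M).subtype k') =
          mp n id (Ker Q M).subtype (mp n f LinearMap.id k') := by
        intro k'
        rw [mp_mp, mp_mp]
        rfl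
      rw [e4, ← hιk, e5]
    obtain ⟨s, hs⟩ := ih (Ker Q M) (kerRep ρ) k hkcyc hkA
    -- a cycle with coefficients in `ℚ[Q] ⊗ M` lifting `z`
    set zz := zt - mp (n + 1) id (Ker Q M).subtype s with hzz
    have hzzcyc : Cyc ((indRep ρ).comp π) (n + 1) zz := by
      rw [cyc_succ, hzz, map_sub, ← hkt, dd_sub, hs, hιk, sub_self]
    have hzzaug : mp (n + 1) id (augM Q M) zz = z := by
      rw [hzz, map_sub, hzt, aug_lift, mp_mp]
      have e1 : (augM Q M) ∘ₗ (Ker Q M).subtype = 0 := by
        apply LinearMap.ext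
        intro p
        exact LinearMap.mem_ker.mp p.2
      rw [e1, mp_coef_zero, sub_zero]
    obtain ⟨y, hy, hyz⟩ := shap π K hπ hK ρ (n + 1) zz hzzcyc
    have h1 := range_mp (ρ := (indRep ρ).comp π) (τ := ρ.comp π) (MonoidHom.id _) (augM Q M)
      (fun g m => augM_ind ρ (π g) m) (n + 1) _ hyz
    rw [map_sub] at h1
    have e1 : mp (n + 1) (MonoidHom.id G) (augM Q M) zz = z := hzzaug
    have e2 : mp (n + 1) (MonoidHom.id G) (augM Q M)
        (mp (n + 1) K.subtype (lsingle (1 : Q)) y) = mp (n + 1) K.subtype LinearMap.id y := by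
      rw [mp_mp]
      congr 2
      apply LinearMap.ext
      intro m
      exact augM_single 1 m
    rw [e1, e2] at h1
    have h2 := hsec M ρ (n + 1) y hy (fun B _ p f hf => by
      have hpf := hP B p f hf
      have h3 := range_mp (ρ := ρ.comp π) (τ := ρ.comp p) f
        LinearMap.id (fun g m => by
          change ρ (π g) m = ρ (p (f g)) m
          rw [hpf]) (n + 1) _ h1
      rw [map_sub] at h3
      have h4 := Submodule.sub_mem _ (h B p f hf) h3
      rwa [sub_sub_cancel] at h4)
    have h3 := Submodule.add_mem _ h1 h2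
    rwa [sub_add_cancel] at h3

/-- The version for rational homology. -/
theorem prin_hq (hπ : Function.Surjective π) (hK : ∀ g, g ∈ K ↔ π g = 1)
    (hP : ∀ (B : Type) [Group B] (p : B →* Q) (f : G →* B), P B p f → ∀ g, p (f g) = π g)
    (hsec : Second π K P) (j : ℕ) (x : HQ j G)
    (h : ∀ (B : Type) [Group B] (p : B →* Q) (f : G →* B), P B p f → hqMap f j x = 0) :
    x = 0 := by
  obtain ⟨z, hz⟩ := exists_rpr (Rep.trivial ℚ G ℚ) j x
  rw [hz.eq_zero_iff]
  exact prin hπ hK hP hsec j ℚ (tQ Q) z hz.cyc (fun B _ p f hf => by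
    have h1 := (hz.hq f).eq_zero_iff.mp (h B p f hf)
    exact h1)

end

end Run7.h16.DS
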